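import Pool.Agent.W_26e041_h61.DiscE

/-!
The set of the faces of a subdisc is determined by its boundary: parity of the number of faces at an
edge.
-/

namespace EPG26

variable {V : Type*} [DecidableEq V]

/-- the pair `x, y` is the edge `a, b` -/
def eI (a b x y : V) : ZMod 2 := if (x = a ∧ y = b) ∨ (x = b ∧ y = a) then 1 else 0

/-- the face `f` contains the edge `a, b` -/
def fI (a b : V) (f : Finset V) : ZMod 2 := if a ∈ f ∧ b ∈ f then 1 else 0

/-- parity of the number of faces of `F` at the edge `a, b` -/
def cI (a b : V) (F : Finset (Finset V)) : ZMod 2 := ∑ f ∈ F, fI a b f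

/-- parity of the number of times the path `l` uses the edge `a, b` -/
def pI (a b : V) : List V → ZMod 2
  | x :: y :: t => eI a b x y + pI a b (y :: t)
  | _ => 0

theorem eI_symm (a b x y : V) : eI a b x y = eI a b y x := by
  unfold eI
  congr 1
  apply propext
  tauto

theorem z2_add_self (x : ZMod 2) : x + x = 0 := by
  revert x
  decide

theorem pI_append (a b x : V) (l m : List V) :
    pI a b (l ++ x :: m) = pI a b (l ++ [x]) + pI a b (x :: m) := by
  induction l with
  | nil =>
    show pI a b (x :: m) = pI a b [x] + pI a b (x :: m)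
    rw [show pI a b [x] = 0 from rfl, zero_add]
  | cons y t ih =>
    cases t with
    | nil =>
      show eI a b y x + pI a b (x :: m) = (eI a b y x + pI a b [x]) + pI a b (x :: m)
      rw [show pI a b [x] = 0 from rfl, add_zero]
    | cons z t' =>
      show eI a b y z + pI a b (z :: t' ++ x :: m) = (eI a b y z + pI a b (z :: t' ++ [x])) + _
      rw [ih, add_assoc]

theorem tri_ne {x y t : V} (h : ({x, y, t} : Finset V).card = 3) : x ≠ y ∧ x ≠ t ∧ y ≠ t := by
  refine ⟨?_, ?_, ?_⟩
  · rintro rfl
    have h1 : ({x, x, t} : Finset V) = {x, t} := by simp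
    rw [h1] at h
    have h2 := Finset.card_le_two (a := x) (b := t)
    omega
  · rintro rfl
    have h1 : ({x, y, x} : Finset V) = {y, x} := by
      ext z
      simp only [Finset.mem_insert, Finset.mem_singleton]
      tauto
    rw [h1] at h
    have h2 := Finset.card_le_two (a := y) (b := x)
    omega
  · rintro rfl
    have h1 : ({x, y, y} : Finset V) = {x, y} := by simp
    rw [h1] at h
    have h2 := Finset.card_le_two (a := x) (b := y)
    omega

theorem fI_tri {a b x y t : V} (hab : a ≠ b) (h : ({x, y, t} : Finset V).card = 3) :
    fI a b {x, y, t} = eI a b x y + eI a b y t + eI a b t x := by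
  obtain ⟨h1, h2, h3⟩ := tri_ne h
  unfold fI eI
  simp only [Finset.mem_insert, Finset.mem_singleton]
  by_cases ax : a = x
  · subst ax
    by_cases bx : b = y
    · subst bx
      simp [h1, h2, h3, h1.symm, h2.symm, h3.symm]
    · by_cases bt : b = t
      · subst bt
        simp [h1, h2, h3, h1.symm, h2.symm, h3.symm]
      · simp [hab.symm, bx, bt, h1, h2, h1.symm, h2.symm, Ne.symm bx, Ne.symm bt]
  · by_cases ay : a = y
    · subst ay
      by_cases bx : b = x
      · subst bx
        simp [h1, h2, h3, h1.symm, h2.symm, h3.symm]
      · by_cases bt : b = t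
        · subst bt
          simp [h1, h2, h3, h1.symm, h2.symm, h3.symm]
        · simp [hab.symm, bx, bt, h1, h3, h1.symm, h3.symm, Ne.symm bx, Ne.symm bt]
    · by_cases at' : a = t
      · subst at'
        by_cases bx : b = x
        · subst bx
          simp [h1, h2, h3, h1.symm, h2.symm, h3.symm]
        · by_cases by' : b = y
          · subst by'
            simp [h1, h2, h3, h1.symm, h2.symm, h3.symm]
          · simp [hab.symm, bx, by', h2, h3, h2.symm, h3.symm, Ne.symm bx, Ne.symm by']
      · simp [ax, ay, at', Ne.symm ax, Ne.symm ay, Ne.symm at']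

theorem list_shape {l : List V} (h : 2 ≤ l.length) : ∃ x m y, l = x :: (m ++ [y]) := by
  cases l with
  | nil => simp at h
  | cons x t =>
    have ht : t ≠ [] := by
      rintro rfl
      simp at h
    exact ⟨x, t.dropLast, t.getLast ht, by rw [List.dropLast_append_getLast ht]⟩

theorem cI_union {a b : V} {F G : Finset (Finset V)} (h : Disjoint F G) :
    cI a b (F ∪ G) = cI a b F + cI a b G := Finset.sum_union h

theorem cI_insert {a b : V} {f : Finset V} {F : Finset (Finset V)} (h : f ∉ F) :
    cI a b (insert f F) = fI a b f + cI a b F := Finset.sum_insert h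

/-- the parity of the number of faces at an edge is the parity on the boundary -/
theorem Disc.parity (n : ℕ) : ∀ {F : Finset (Finset V)}, F.card = n → ∀ {x y : V} {m : List V},
    Disc (x :: (m ++ [y])) F → ∀ a b, a ≠ b →
      cI a b F = pI a b (x :: (m ++ [y])) + eI a b y x := by
  induction n using Nat.strong_induction_on with
  | _ n ih =>
    intro F hn x y m hd a b hab
    by_cases hm : m = []
    · subst hm
      have h1 : F = ∅ := Disc.empty_of_two (a := x) (b := y) hd
      subst h1
      show (0 : ZMod 2) = (eI a b x y + 0) + eI a b y x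
      rw [add_zero, eI_symm a b y x, z2_add_self]
    · have h3 := hd.card3
      obtain ⟨t, F', h1, h2, h4⟩ := hd.peel hm
      have hcard : F'.card < n := by
        rw [← hn, h2, Finset.card_insert_of_notMem h1]
        omega
      have hf0 : ({x, y, t} : Finset V).card = 3 := h3 _ (by
        rw [h2]
        exact Finset.mem_insert_self _ _)
      rw [h2, cI_insert h1, fI_tri hab hf0]
      rcases h4 with ⟨-, h5, -⟩ | ⟨m₁, m₂, F₁, F₂, h5, h6, h7, h8, h9, -⟩
      · have h6 : x :: (m ++ [y, t]) = x :: ((m ++ [y]) ++ [t]) := by simp
        rw [h6] at h5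
        rw [ih _ hcard rfl h5 a b hab]
        have h7 : x :: ((m ++ [y]) ++ [t]) = (x :: m) ++ y :: [t] := by simp
        have h8 : x :: (m ++ [y]) = (x :: m) ++ [y] := by simp
        rw [h7, pI_append, h8, show pI a b [y, t] = eI a b y t from add_zero _,
          eI_symm a b y x]
        have h9 := z2_add_self (eI a b y t)
        have h10 := z2_add_self (eI a b t x)
        linear_combination h9 + h10
      · have hc1 : F₁.card < n := by
          refine lt_of_le_of_lt (Finset.card_le_card ?_) hcard
          rw [h6]
          exact Finset.subset_union_left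
        have hc2 : F₂.card < n := by
          refine lt_of_le_of_lt (Finset.card_le_card ?_) hcard
          rw [h6]
          exact Finset.subset_union_right
        rw [h6, cI_union h7, ih _ hc1 rfl h8 a b hab, ih _ hc2 rfl h9 a b hab, h5]
        have e1 : x :: (m₁ ++ t :: m₂ ++ [y]) = (x :: m₁) ++ t :: (m₂ ++ [y]) := by simp
        have e2 : x :: (m₁ ++ [t]) = (x :: m₁) ++ [t] := by simp
        rw [e1, pI_append, e2, eI_symm a b y x]
        have h9 := z2_add_self (eI a b y t)
        have h10 := z2_add_self (eI a b t x)
        linear_combination h9 + h10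

theorem fI_zero {a b : V} {f : Finset V} (h : ¬ (a ∈ f ∧ b ∈ f)) : fI a b f = 0 := if_neg h

theorem cI_zero {a b : V} {F : Finset (Finset V)} (h : ∀ f ∈ F, ¬ (a ∈ f ∧ b ∈ f)) :
    cI a b F = 0 := Finset.sum_eq_zero fun f hf => fI_zero (h f hf)

/-- there is no nonempty set of faces with an even number of faces at every edge -/
theorem Disc.even_empty (n : ℕ) : ∀ {F : Finset (Finset V)}, F.card = n → ∀ {l : List V},
    Disc l F → ∀ A ⊆ F, (∀ a b, a ≠ b → cI a b A = 0) → A = ∅ := by
  induction n using Nat.strong_induction_on with
  | _ n ih =>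
    intro F hn l hd A hA hev
    obtain ⟨x, m, y, rfl⟩ := list_shape hd.two_le
    by_cases hm : m = []
    · subst hm
      have h1 : F = ∅ := Disc.empty_of_two (a := x) (b := y) hd
      rw [h1] at hA
      exact Finset.subset_empty.1 hA
    · have h3 := hd.card3
      obtain ⟨t, F', h1, h2, h4⟩ := hd.peel hm
      have hcard : F'.card < n := by
        rw [← hn, h2, Finset.card_insert_of_notMem h1]
        omega
      have hf0F : ({x, y, t} : Finset V) ∈ F := by
        rw [h2]
        exact Finset.mem_insert_self _ _
      obtain ⟨hxy, -, -⟩ := tri_ne (h3 _ hf0F)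
      have hf0 : ({x, y, t} : Finset V) ∉ A := by
        intro h5
        have h6 := hev x y hxy
        unfold cI at h6
        rw [Finset.sum_eq_single_of_mem _ h5] at h6
        · unfold fI at h6
          rw [if_pos (by simp)] at h6
          exact absurd h6 (by decide)
        · intro g hg hne
          refine fI_zero fun h7 => hne ?_
          exact hd.root_unique hm (hA hg) hf0F h7.1 h7.2 (by simp) (by simp)
      have hA' : A ⊆ F' := by
        intro g hg
        have h5 := hA hg
        rw [h2, Finset.mem_insert] at h5
        rcases h5 with h5 | h5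
        · exact absurd (h5 ▸ hg) hf0
        · exact h5
      rcases h4 with ⟨-, h5, -⟩ | ⟨m₁, m₂, F₁, F₂, h5, h6, h7, h8, h9, h10⟩
      · exact ih _ hcard rfl h5 A hA' hev
      · have hc1 : F₁.card < n := by
          refine lt_of_le_of_lt (Finset.card_le_card ?_) hcard
          rw [h6]
          exact Finset.subset_union_left
        have hc2 : F₂.card < n := by
          refine lt_of_le_of_lt (Finset.card_le_card ?_) hcard
          rw [h6]
          exact Finset.subset_union_right
        have hdj : Disjoint (A ∩ F₁) (A ∩ F₂) :=
          h7.mono Finset.inter_subset_right Finset.inter_subset_right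
        have hun : A = (A ∩ F₁) ∪ (A ∩ F₂) := by
          rw [← Finset.inter_union_distrib_left, ← h6]
          exact (Finset.inter_eq_left.2 hA').symm
        have hkey : ∀ a b, a ≠ b → cI a b (A ∩ F₁) = 0 ∧ cI a b (A ∩ F₂) = 0 := by
          intro a b hab
          have h11 := hev a b hab
          rw [hun, cI_union hdj] at h11
          by_cases hex : ∃ f ∈ A ∩ F₁, a ∈ f ∧ b ∈ f
          · obtain ⟨f, hf, hfa, hfb⟩ := hex
            have h12 : cI a b (A ∩ F₂) = 0 := by
              refine cI_zero fun g hg hgab => hab ?_
              have hf1 := (Finset.mem_inter.1 hf).2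
              have hg1 := (Finset.mem_inter.1 hg).2
              rw [h10 a (DiscA_mem_verts_right hf1 hfa) (DiscA_mem_verts_right hg1 hgab.1),
                h10 b (DiscA_mem_verts_right hf1 hfb) (DiscA_mem_verts_right hg1 hgab.2)]
            rw [h12, add_zero] at h11
            exact ⟨h11, h12⟩
          · have h12 : cI a b (A ∩ F₁) = 0 := cI_zero fun g hg hgab => hex ⟨g, hg, hgab⟩
            rw [h12, zero_add] at h11
            exact ⟨h12, h11⟩
        have hA1 : A ∩ F₁ = ∅ := ih _ hc1 rfl h8 _ Finset.inter_subset_right
          fun a b hab => (hkey a b hab).1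
        have hA2 : A ∩ F₂ = ∅ := ih _ hc2 rfl h9 _ Finset.inter_subset_right
          fun a b hab => (hkey a b hab).2
        rw [hun, hA1, hA2, Finset.union_empty]

/-- A subdisc is determined by its boundary. -/
theorem Disc.uniq {l l' : List V} {F G H : Finset (Finset V)} (hF : Disc l F) (hGF : G ⊆ F)
    (hHF : H ⊆ F) (hG : Disc l' G) (hH : Disc l' H) : G = H := by
  obtain ⟨x, m, y, rfl⟩ := list_shape hG.two_le
  have hd : Disjoint (G \ H) (H \ G) := disjoint_sdiff_sdiff
  have h1 : (G \ H) ∪ (H \ G) = ∅ := by
    refine Disc.even_empty _ rfl hF _ ?_ ?_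
    · exact Finset.union_subset (Finset.sdiff_subset.trans hGF) (Finset.sdiff_subset.trans hHF)
    · intro a b hab
      have h2 := Disc.parity _ rfl hG a b hab
      have h3 := Disc.parity _ rfl hH a b hab
      have h4 : cI a b G = cI a b (G \ H) + cI a b (G ∩ H) := by
        rw [← cI_union (Finset.disjoint_sdiff_inter G H), Finset.sdiff_union_inter]
      have h5 : cI a b H = cI a b (H \ G) + cI a b (G ∩ H) := by
        rw [Finset.inter_comm, ← cI_union (Finset.disjoint_sdiff_inter H G),
          Finset.sdiff_union_inter]
      rw [cI_union hd]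
      have h6 := z2_add_self (cI a b (G ∩ H))
      have h7 := z2_add_self (cI a b G)
      have h8 : cI a b G = cI a b H := by rw [h2, h3]
      linear_combination (-1 : ZMod 2) * h4 - h5 + h7 - h6 - h8
  rw [Finset.union_eq_empty, Finset.sdiff_eq_empty_iff_subset, Finset.sdiff_eq_empty_iff_subset]
    at h1
  exact Finset.Subset.antisymm h1.1 h1.2

end EPG26
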